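import Mathlib

namespace Pool.Agent.Results.MP_db21b4_co.Small

open Finset SimpleGraph

/-- The arcs of the oriented bowtie with center `0` and triangles `0 1 2`, `0 3 4`: three of the
four edges at the center point toward it. -/
def arcs : List (Fin 5 × Fin 5) := [(1, 0), (2, 0), (3, 0), (0, 4), (1, 2), (4, 3)]

/-- The bowtie: the underlying graph of `arcs`. -/
def bowtie : SimpleGraph (Fin 5) := SimpleGraph.fromRel fun u v => (u, v) ∈ arcs

/-- `R` (arc from `u` to `v` when `R u v = true`) is an orientation of `G`. -/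
def IsOrientation {n : ℕ} (G : SimpleGraph (Fin n)) (R : Fin n → Fin n → Bool) : Prop :=
  (∀ u v, G.Adj u v ↔ (R u v = true ∨ R v u = true)) ∧ ∀ u v, ¬ (R u v = true ∧ R v u = true)

/-- `R` contains no copy of the oriented bowtie. -/
def Free {n : ℕ} (R : Fin n → Fin n → Bool) : Prop :=
  ¬ ∃ f : Fin 5 → Fin n, Function.Injective f ∧ ∀ p ∈ arcs, R (f p.1) (f p.2) = true

/-- The number of orientations of `G` with no copy of the oriented bowtie. -/
noncomputable def D {n : ℕ} (G : SimpleGraph (Fin n)) : ℕ :=
  {R : Fin n → Fin n → Bool | IsOrientation G R ∧ Free R}.ncard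

def toR (m : ℕ) (u v : Fin 5) : Bool :=
  if u < v then m.testBit (5 * u.val + v.val)
  else if v < u then !(m.testBit (5 * v.val + u.val)) else false

def back (R : Fin 5 → Fin 5 → Bool) : ℕ :=
  (if R 0 1 then 2 else 0) + (if R 0 2 then 4 else 0) + (if R 0 3 then 8 else 0) + (if R 0 4
    then 16 else 0) + (if R 1 2 then 128 else 0) + (if R 1 3 then 256 else 0) + (if R 1 4 then
    512 else 0) + (if R 2 3 then 8192 else 0) + (if R 2 4 then 16384 else 0) + (if R 3 4 then
    524288 else 0)

def L : List ℕ :=
  [0, 2, 6, 10, 14, 18, 22, 26, 30, 128, 132, 134, 140, 142, 148, 150, 156, 158, 256, 384, 388,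
   390, 396, 398, 404, 406, 412, 414, 512, 536, 640, 644, 646, 652, 654, 660, 662, 668, 670, 768,
   786, 896, 900, 902, 908, 910, 916, 918, 924, 926, 8192, 8194, 8198, 8202, 8206, 8210, 8214,
   8218, 8222, 8320, 8448, 8456, 8458, 8460, 8462, 8472, 8474, 8476, 8478, 8576, 8584, 8586, 8588,
   8590, 8600, 8602, 8604, 8606, 8704, 8724, 8832, 8850, 8960, 8968, 8970, 8972, 8974, 8984, 8986,
   8988, 8990, 9088, 9096, 9098, 9100, 9102, 9112, 9114, 9116, 9118, 16384, 16386, 16390, 16394,
   16398, 16402, 16406, 16410, 16414, 16512, 16536, 16640, 16660, 16768, 16786, 16896, 16908,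
   17024, 17034, 17152, 17158, 17280, 24576, 24578, 24582, 24586, 24590, 24594, 24598, 24602,
   24606, 24704, 24724, 24832, 24840, 24842, 24844, 24846, 24856, 24858, 24860, 24862, 24960,
   24968, 24970, 24972, 24974, 24984, 24986, 24988, 24990, 25088, 25216, 25222, 25344, 25352,
   25354, 25356, 25358, 25368, 25370, 25372, 25374, 25472, 25480, 25482, 25484, 25486, 25496,
   25498, 25500, 25502, 524288, 524290, 524294, 524298, 524302, 524306, 524310, 524314, 524318,
   524416, 524420, 524422, 524428, 524430, 524436, 524438, 524444, 524446, 524544, 524568, 524672,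
   524676, 524678, 524684, 524686, 524692, 524694, 524700, 524702, 524800, 524928, 524932, 524934,
   524940, 524942, 524948, 524950, 524956, 524958, 525056, 525066, 525184, 525188, 525190, 525196,
   525198, 525204, 525206, 525212, 525214, 532480, 532482, 532486, 532490, 532494, 532498, 532502,
   532506, 532510, 532608, 532632, 532736, 532756, 532864, 532882, 532992, 533004, 533120, 533130,
   533248, 533254, 533376, 540672, 540674, 540678, 540682, 540686, 540690, 540694, 540698, 540702,
   540800, 540928, 540940, 541056]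

def all5 : List (Fin 5) := [0, 1, 2, 3, 4]

def chk (m : ℕ) : Bool :=
  all5.all fun c => all5.all fun a => !(toR m a c) || all5.all fun b =>
    !(toR m b c && toR m a b) || all5.all fun d => !(toR m d c) || all5.all fun e =>
      !(toR m c e && toR m e d) || (decide (a = d) || decide (b = d))

lemma h1 : L.all chk = true := by decide +kernel
lemma h2 : L.all (fun m => back (toR m) == m) = true := by decide +kernel
lemma h3 : L.toFinset.card = 257 := by
  rw [List.toFinset_card_of_nodup (by decide +kernel)]
  decide +kernel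
lemma mem5 : ∀ x : Fin 5, x ∈ all5 := by decide

lemma orient (m : ℕ) : IsOrientation ⊤ (toR m) := by
  constructor
  · intro u v
    rw [top_adj]
    unfold toR
    rcases lt_trichotomy u v with h | h | h
    · simp [h, h.ne, not_lt.mpr h.le]
    · simp [h]
    · simp [h, h.ne', not_lt.mpr h.le]
  · intro u v
    unfold toR
    rcases lt_trichotomy u v with h | h | h
    · simp [h, not_lt.mpr h.le]
    · simp [h]
    · simp [h, not_lt.mpr h.le]

lemma free (m : ℕ) (hm : chk m = true) : Free (toR m) := by
  rintro ⟨f, hf, h⟩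
  have e1 := h (1, 0) (by decide)
  have e2 := h (2, 0) (by decide)
  have e3 := h (3, 0) (by decide)
  have e4 := h (0, 4) (by decide)
  have e5 := h (1, 2) (by decide)
  have e6 := h (4, 3) (by decide)
  simp only at e1 e2 e3 e4 e5 e6
  unfold chk at hm
  simp only [List.all_eq_true, Bool.or_eq_true, Bool.not_eq_true', Bool.and_eq_false_iff,
    decide_eq_true_eq] at hm
  have k1 := (hm (f 0) (mem5 _) (f 1) (mem5 _)).resolve_left (by simp [e1])
  have k2 := (k1 (f 2) (mem5 _)).resolve_left (by simp [e2, e5])
  have k3 := (k2 (f 3) (mem5 _)).resolve_left (by simp [e3])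
  have k4 := (k3 (f 4) (mem5 _)).resolve_left (by simp [e4, e6])
  rcases k4 with k | k <;> exact absurd (hf k) (by decide)

lemma big : 257 ≤ D (⊤ : SimpleGraph (Fin 5)) := by
  have inj : Set.InjOn toR (L.toFinset : Set ℕ) := by
    intro a ha b hb hab
    have ha' := List.all_eq_true.mp h2 a (by simpa using ha)
    have hb' := List.all_eq_true.mp h2 b (by simpa using hb)
    rw [beq_iff_eq] at ha' hb'
    rw [← ha', ← hb', hab]
  rw [← h3, ← card_image_of_injOn inj, ← Set.ncard_coe_finset]
  apply Set.ncard_le_ncard _ (Set.toFinite _)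
  intro R hR
  obtain ⟨m, hm, rfl⟩ := mem_image.mp (mem_coe.mp hR)
  exact ⟨orient m, free m (List.all_eq_true.mp h1 m (by simpa using hm))⟩

lemma ex_le : extremalNumber 5 bowtie ≤ 8 := by
  have : extremalNumber (Fintype.card (Fin 5)) bowtie ≤ 8 := by
    rw [extremalNumber_le_iff]
    intro G _ hG
    set x : Fin 5 → Fin 5 → ℕ := fun u v => if G.Adj u v then 1 else 0 with hx
    have hs : ∀ u v, x u v = x v u := by intro u v; simp only [hx, G.adj_comm u v]
    have hi : ∀ u, x u u = 0 := by intro u; simp [hx]
    have hb : ∀ c a b d e : Fin 5, Function.Injective ![c, a, b, d, e] →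
        x c a + x c b + x c d + x c e + x a b + x d e ≤ 5 := by
      intro c a b d e hinj
      by_contra hc
      have : G.Adj c a ∧ G.Adj c b ∧ G.Adj c d ∧ G.Adj c e ∧ G.Adj a b ∧ G.Adj d e := by
        simp only [hx] at hc
        split_ifs at hc <;> first | omega | exact ⟨‹_›, ‹_›, ‹_›, ‹_›, ‹_›, ‹_›⟩
      obtain ⟨q1, q2, q3, q4, q5, q6⟩ := this
      apply hG
      refine ⟨⟨⟨![c, a, b, d, e], ?_⟩, hinj⟩⟩
      intro u v huv
      fin_cases u <;> fin_cases v <;> simp [bowtie, arcs] at huv <;>
        first | assumption | (apply G.adj_symm; assumption)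
    have hd := G.sum_degrees_eq_twice_card_edges
    have hv : ∀ v, G.degree v = ∑ w, x v w := by
      intro v
      rw [← card_neighborFinset_eq_degree, neighborFinset_eq_filter, card_filter]
    simp only [hv, Fin.sum_univ_five] at hd
    have s01 := hs 1 0
    have s02 := hs 2 0
    have s03 := hs 3 0
    have s04 := hs 4 0
    have s12 := hs 2 1
    have s13 := hs 3 1
    have s14 := hs 4 1
    have s23 := hs 3 2
    have s24 := hs 4 2
    have s34 := hs 4 3
    have i0 := hi 0
    have i1 := hi 1
    have i2 := hi 2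
    have i3 := hi 3
    have i4 := hi 4
    have b0 := hb 0 1 2 3 4 (by decide)
    have b1 := hb 0 1 3 2 4 (by decide)
    have b2 := hb 0 1 4 2 3 (by decide)
    have b3 := hb 1 0 2 3 4 (by decide)
    have b4 := hb 1 0 3 2 4 (by decide)
    have b5 := hb 1 0 4 2 3 (by decide)
    have b6 := hb 2 0 1 3 4 (by decide)
    have b7 := hb 2 0 3 1 4 (by decide)
    have b8 := hb 2 0 4 1 3 (by decide)
    have b9 := hb 3 0 1 2 4 (by decide)
    have b10 := hb 3 0 2 1 4 (by decide)
    have b11 := hb 3 0 4 1 2 (by decide)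
    have b12 := hb 4 0 1 2 3 (by decide)
    have b13 := hb 4 0 2 1 3 (by decide)
    have b14 := hb 4 0 3 1 2 (by decide)
    omega
  simpa using this

lemma key (k : ℕ) (hk : k ≤ 8) : 2 ^ k < 257 := by
  have := Nat.pow_le_pow_right (show 0 < 2 by norm_num) hk
  omega

theorem result : ∃ (n : ℕ) (G : SimpleGraph (Fin n)), 2 ^ extremalNumber n bowtie < D G :=
  ⟨5, ⊤, Nat.lt_of_lt_of_le (key _ ex_le) big⟩

end Pool.Agent.Results.MP_db21b4_co.Small
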